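import Mathlib
import Pool.Agent.W765.Sta4

/-!
Times of visit of an orbit and families of sets of times.
-/

set_option autoImplicit false

open MeasureTheory Filter Topology Set

namespace Pool.Agent.Zk24.ID

abbrev T := AddCircle (1 : ℝ)

/-- the points all of whose neighbourhoods are visited along a set of times in `F` -/
def LI (p : ℕ) (F : Set (Set ℕ)) (x : T) : Set T :=
  {y | ∀ U : Set T, IsOpen U → y ∈ U → {n : ℕ | p ^ n • x ∈ U} ∈ F}

variable {F : Set (Set ℕ)}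

lemma isClosed_LI (p : ℕ) (x : T) : IsClosed (LI p F x) := by
  rw [← isOpen_compl_iff, isOpen_iff_forall_mem_open]
  intro y hy
  have hy : ¬ ∀ U : Set T, IsOpen U → y ∈ U → {n : ℕ | p ^ n • x ∈ U} ∈ F := hy
  push Not at hy
  obtain ⟨U, hU, hyU, h⟩ := hy
  exact ⟨U, fun z hz hz' => h (hz' U hU hz), hU, hyU⟩

/-- a compact set disjoint from `LI` is visited along a set of times outside of `F`, if the
complement of `F` is an ideal -/
lemma notMem_of_disjoint (h0 : ∅ ∉ F) (hmono : ∀ A B : Set ℕ, A ⊆ B → A ∈ F → B ∈ F)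
    (hunion : ∀ A B : Set ℕ, A ∉ F → B ∉ F → A ∪ B ∉ F) {p : ℕ} {x : T} {D : Set T}
    (hD : IsCompact D) (h : Disjoint D (LI p F x)) : {n : ℕ | p ^ n • x ∈ D} ∉ F := by
  refine hD.induction_on (p := fun D => {n : ℕ | p ^ n • x ∈ D} ∉ F) ?_ ?_ ?_ ?_
  · simpa using h0
  · intro s t hst ht hs
    exact ht (hmono _ _ (fun n hn => hst hn) hs)
  · intro s t hs ht
    exact hunion _ _ hs ht
  · intro y hy
    have h1 : y ∉ LI p F x := Set.disjoint_left.1 h hy
    have h1 : ¬ ∀ U : Set T, IsOpen U → y ∈ U → {n : ℕ | p ^ n • x ∈ U} ∈ F := h1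
    push Not at h1
    obtain ⟨U, hU, hyU, h2⟩ := h1
    exact ⟨U, mem_nhdsWithin_of_mem_nhds (hU.mem_nhds hyU), h2⟩

lemma hit_LI (hmono : ∀ A B : Set ℕ, A ⊆ B → A ∈ F → B ∈ F) (hF : MeasurableSet F) (p : ℕ) :
    Pool.Agent.W765.Sta.Hit (LI p F) := by
  intro V hV
  obtain ⟨b, hbc, -, hb⟩ := TopologicalSpace.exists_countable_basis T
  obtain ⟨c, hcc, hcd⟩ := TopologicalSpace.exists_countable_dense T
  -- compact sets
  have hcomp : ∀ D : Set T, IsCompact D → {x | (LI p F x ∩ D).Nonempty} =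
      ⋂ m : ℕ, ⋃ z ∈ {z ∈ c | (Metric.ball z (1 / ((m : ℝ) + 1)) ∩ D).Nonempty},
        {x : T | {n : ℕ | p ^ n • x ∈ Metric.ball z (1 / ((m : ℝ) + 1))} ∈ F} := by
    intro D hD
    ext x
    simp only [mem_ofPred_eq, mem_iInter, mem_iUnion, exists_prop]
    constructor
    · rintro ⟨y, hy, hyD⟩ m
      have hm : (0 : ℝ) < 1 / ((m : ℝ) + 1) := by positivity
      obtain ⟨z, hz, hyz⟩ := hcd.exists_dist_lt y hm
      exact ⟨z, ⟨hz, y, hyz, hyD⟩, hy _ Metric.isOpen_ball hyz⟩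
    · intro h
      choose z hz hzF using h
      choose y hy hyD using fun m => (hz m).2
      obtain ⟨y0, hy0, φ, hφ, hlim⟩ := hD.tendsto_subseq hyD
      refine ⟨y0, fun U hU hyU => ?_, hy0⟩
      obtain ⟨ε, hε, hεU⟩ := Metric.isOpen_iff.1 hU y0 hyU
      have h1 : ∀ᶠ k in atTop, dist (y (φ k)) y0 < ε / 2 := by
        have := Metric.tendsto_nhds.1 hlim (ε / 2) (by positivity)
        exact this
      have h2 : Tendsto (fun k : ℕ => 1 / ((k : ℝ) + 1)) atTop (𝓝 0) :=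
        tendsto_one_div_add_atTop_nhds_zero_nat
      have h3 : ∀ᶠ k in atTop, 1 / (((φ k : ℕ) : ℝ) + 1) < ε / 4 :=
        (h2.comp hφ.tendsto_atTop).eventually (gt_mem_nhds (by positivity))
      obtain ⟨k, hk1, hk2⟩ := (h1.and h3).exists
      refine hmono _ _ ?_ (hzF (φ k))
      intro n hn
      have h4 : dist (p ^ n • x) (z (φ k)) < 1 / (((φ k : ℕ) : ℝ) + 1) := hn
      have h5 : dist (y (φ k)) (z (φ k)) < 1 / (((φ k : ℕ) : ℝ) + 1) := hy (φ k)
      refine hεU ?_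
      have h6 : dist (p ^ n • x) y0 ≤ dist (p ^ n • x) (z (φ k)) + dist (y (φ k)) (z (φ k))
          + dist (y (φ k)) y0 := by
        have e1 := dist_triangle (p ^ n • x) (z (φ k)) y0
        have e2 := dist_triangle_left (z (φ k)) y0 (y (φ k))
        linarith
      change dist (p ^ n • x) y0 < ε
      linarith
  have key : {x | (LI p F x ∩ V).Nonempty} =
      ⋃ W ∈ {W ∈ b | closure W ⊆ V}, {x | (LI p F x ∩ closure W).Nonempty} := by
    ext x
    simp only [mem_ofPred_eq, mem_iUnion, exists_prop]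
    constructor
    · rintro ⟨y, hy, hyV⟩
      obtain ⟨D, hD, hDc, hDV⟩ := exists_mem_nhds_isClosed_subset (hV.mem_nhds hyV)
      obtain ⟨W, hW, hyW, hWD⟩ := hb.mem_nhds_iff.1 hD
      exact ⟨W, ⟨hW, (closure_minimal hWD hDc).trans hDV⟩, y, hy, subset_closure hyW⟩
    · rintro ⟨W, ⟨hW, hWV⟩, y, hy, hyW⟩
      exact ⟨y, hy, hWV hyW⟩
  rw [key]
  have hbc' : ({W ∈ b | closure W ⊆ V}).Countable := hbc.mono (sep_subset _ _)
  refine MeasurableSet.biUnion hbc' fun W _ => ?_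
  rw [hcomp _ isClosed_closure.isCompact]
  refine MeasurableSet.iInter fun m => ?_
  refine MeasurableSet.biUnion (hcc.mono (sep_subset _ _)) fun z _ => ?_
  have hm : Measurable fun x : T => {n : ℕ | p ^ n • x ∈ Metric.ball z (1 / ((m : ℝ) + 1))} := by
    rw [measurable_set_iff]
    intro n
    have h1 : Measurable fun x : T => p ^ n • x := (continuous_const_smul _).measurable
    exact (h1 Metric.isOpen_ball.measurableSet).mem
  exact hm hF

/-- **Dichotomy along a family of sets of times.** -/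
theorem main {p q : ℕ} (hp : 2 ≤ p) (hq : 2 ≤ q)
    (hirr : Irrational (Real.log (p : ℝ) / Real.log (q : ℝ)))
    (hmono : ∀ A B : Set ℕ, A ⊆ B → A ∈ F → B ∈ F)
    (hshift : ∀ A : Set ℕ, {n | n + 1 ∈ A} ∈ F → A ∈ F) (hF : MeasurableSet F) {μ : Measure T}
    [IsProbabilityMeasure μ] (hμ : MeasurePreserving (fun x : T => q • x) μ μ) :
    ∀ᵐ x ∂μ, (∀ U : Set T, IsOpen U → U.Nonempty → {n : ℕ | p ^ n • x ∈ U} ∈ F) ∨
      ∃ E : Set T, E.Finite ∧ (∀ y ∈ E, p • y ∈ E) ∧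
        (∀ y, y ∉ E → ∃ U : Set T, IsOpen U ∧ y ∈ U ∧ {n : ℕ | p ^ n • x ∈ U} ∉ F) ∧
        (∅ ∉ F → (∀ A B : Set ℕ, A ∉ F → B ∉ F → A ∪ B ∉ F) →
          ∀ V : Set T, IsOpen V → E ⊆ V → {n : ℕ | p ^ n • x ∉ V} ∉ F) := by
  have hp' : ∀ x : T, ∀ y ∈ LI p F x, p • y ∈ LI p F x := by
    intro x y hy U hU hyU
    have h1 := hy ((fun z : T => p • z) ⁻¹' U) (hU.preimage (continuous_const_smul p)) hyU
    refine hshift _ ?_
    convert h1 using 2
    ext n
    change p ^ (n + 1) • x ∈ U ↔ p • p ^ n • x ∈ U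
    rw [pow_succ', mul_nsmul']
  have hq' : ∀ x : T, ∀ y ∈ LI p F x, q • y ∈ LI p F (q • x) := by
    intro x y hy U hU hyU
    have h1 := hy ((fun z : T => q • z) ⁻¹' U) (hU.preimage (continuous_const_smul q)) hyU
    convert h1 using 2
    ext n
    change p ^ n • q • x ∈ U ↔ q • p ^ n • x ∈ U
    rw [smul_comm]
  have h := Pool.Agent.W765.Sta.stationary hp hq
    (Pool.Agent.H705R2.mulIndep_of_irrational hp hq hirr) hμ (F := LI p F) (isClosed_LI p)
    (hit_LI hmono hF p) hp' hq'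
  filter_upwards [h] with x hx
  rcases hx with hx | hx
  · right
    refine ⟨LI p F x, hx, hp' x, fun y hy => ?_, fun h0 hunion V hV hEV => ?_⟩
    · have h1 : ¬ ∀ U : Set T, IsOpen U → y ∈ U → {n : ℕ | p ^ n • x ∈ U} ∈ F := hy
      push Not at h1
      exact h1
    · have hdis : Disjoint Vᶜ (LI p F x) := by
        rw [Set.disjoint_left]
        intro y hy1 hy2
        exact hy1 (hEV hy2)
      exact notMem_of_disjoint h0 hmono hunion hV.isClosed_compl.isCompact hdis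
  · left
    intro U hU hne
    obtain ⟨y, hy⟩ := hne
    have h1 : y ∈ LI p F x := by
      rw [hx]
      trivial
    exact h1 U hU hy

end Pool.Agent.Zk24.ID
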